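import Pool.Agent.H58.HN.TargetsG
import Pool.Agent.H58.HN.TargetsT

/-!
# Board hnet_modules, module GB: the degree theory of a finite graph
-/

set_option autoImplicit false

namespace Pool.Agent.H54.HN

open Pool.Agent.H68.BP Pool.Agent.H58.SF Pool.Agent.H53.RG Pool.Agent.H58.HN

variable {T : Type} {R : T → T → Prop}

private theorem bp_le {x y : BP R} : x ≤ y ↔ x.1.1 ⊆ y.1.1 ∧ x.1.2 ⊆ y.1.2 := Iff.rfl

private theorem bp_ext {x y : BP R} (h1 : x.1.1 = y.1.1) (h2 : x.1.2 = y.1.2) : x = y :=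
  Subtype.ext (Prod.ext h1 h2)

/-- the monotone map given by an arc -/
private def mp {φ φ' : T → T} (h : Arc R R φ φ') : BP R →o BP R where
  toFun x := ⟨(φ '' x.1.1, φ' '' x.1.2), x.2.1.image φ, x.2.2.1.image φ', by
    rintro _ ⟨a, ha, rfl⟩ _ ⟨b, hb, rfl⟩
    exact h a b (x.2.2.2 a ha b hb)⟩
  monotone' x y hxy := ⟨Set.image_mono hxy.1, Set.image_mono hxy.2⟩

/-- the union of two arcs, on the left -/
private def mpl {φ ψ φ' : T → T} (h : Arc R R φ φ') (h' : Arc R R ψ φ') : BP R →o BP R where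
  toFun x := ⟨(φ '' x.1.1 ∪ ψ '' x.1.1, φ' '' x.1.2), (x.2.1.image φ).inl, x.2.2.1.image φ', by
    rintro _ (⟨a, ha, rfl⟩ | ⟨a, ha, rfl⟩) _ ⟨b, hb, rfl⟩
    · exact h a b (x.2.2.2 a ha b hb)
    · exact h' a b (x.2.2.2 a ha b hb)⟩
  monotone' x y hxy := ⟨Set.union_subset_union (Set.image_mono hxy.1) (Set.image_mono hxy.1),
    Set.image_mono hxy.2⟩

/-- the union of two arcs, on the right -/
private def mpr {φ φ' ψ' : T → T} (h : Arc R R φ φ') (h' : Arc R R φ ψ') : BP R →o BP R where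
  toFun x := ⟨(φ '' x.1.1, φ' '' x.1.2 ∪ ψ' '' x.1.2), x.2.1.image φ, (x.2.2.1.image φ').inl, by
    rintro _ ⟨a, ha, rfl⟩ _ (⟨b, hb, rfl⟩ | ⟨b, hb, rfl⟩)
    · exact h a b (x.2.2.2 a ha b hb)
    · exact h' a b (x.2.2.2 a ha b hb)⟩
  monotone' x y hxy := ⟨Set.image_mono hxy.1,
    Set.union_subset_union (Set.image_mono hxy.2) (Set.image_mono hxy.2)⟩

/-- the monotone map of two variables -/
private def mp2 {F F' : T → T → T}
    (h : ∀ s t u v, R s t → R u v → R (F s u) (F' t v)) : BP R × BP R →o BP R where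
  toFun x := ⟨(Set.image2 F x.1.1.1 x.2.1.1, Set.image2 F' x.1.1.2 x.2.1.2),
    x.1.2.1.image2 x.2.2.1, x.1.2.2.1.image2 x.2.2.2.1, by
    rintro _ ⟨a, ha, c, hc, rfl⟩ _ ⟨b, hb, d, hd, rfl⟩
    exact h a b c d (x.1.2.2.2 a ha b hb) (x.2.2.2.2 c hc d hd)⟩
  monotone' x y hxy := ⟨Set.image2_subset hxy.1.1 hxy.2.1, Set.image2_subset hxy.1.2 hxy.2.2⟩

/-- a pair of adjacent vertices -/
private def pr {a b : T} (h : R a b) : BP R :=
  ⟨({a}, {b}), Set.singleton_nonempty a, Set.singleton_nonempty b, by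
    rintro _ rfl _ rfl
    exact h⟩

/-- the swap -/
private def swp (hR : ∀ s t, R s t → R t s) (x : BP R) : BP R :=
  ⟨(x.1.2, x.1.1), x.2.2.1, x.2.1, fun a ha b hb => hR _ _ (x.2.2.2 b hb a ha)⟩

private def tau (hR : ∀ s t, R s t → R t s) : BP R ≃o BP R where
  toFun := swp hR
  invFun := swp hR
  left_inv _ := rfl
  right_inv _ := rfl
  map_rel_iff' := ⟨fun h => ⟨h.2, h.1⟩, fun h => ⟨h.2, h.1⟩⟩

theorem pf_GB (hA : T_GA) (hT : T_TOP) : T_GB := by
  classical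
  intro T R _ hsym hirr hedge hwalk
  have hfin : Finite (BP R) := Subtype.finite
  obtain ⟨s0, t0, h0⟩ := hedge
  have hne : Nonempty (BP R) := ⟨pr h0⟩
  obtain ⟨A, iR, iA, iN, ⟨dg⟩⟩ := hT (BP R) (hA T R hsym hwalk) (tau hsym) (fun _ => rfl)
    (fun x hx => by
      have h1 : x.1.2 = x.1.1 := congrArg (fun y : BP R => y.1.1) hx
      obtain ⟨a, ha⟩ := x.2.1
      exact hirr a (x.2.2.2 a ha a (h1 ▸ ha)))
  refine ⟨A, iR, iA, iN, fun φ φ' => if h : Arc R R φ φ' then dg.act (mp h) else 0,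
    ?_, ?_, ?_, ?_, ?_⟩
  · have h1 : Arc R R (id : T → T) id := fun x y h => h
    rw [dif_pos h1, ← dg.one]
    congr 1
    exact OrderHom.ext _ _ (funext fun x => bp_ext (Set.image_id _) (Set.image_id _))
  · intro φ φ' ψ ψ' h h'
    have h1 : Arc R R (φ ∘ ψ) (φ' ∘ ψ') := fun x y hxy => h _ _ (h' x y hxy)
    rw [dif_pos h1, dif_pos h, dif_pos h', ← dg.mul]
    congr 1
    exact OrderHom.ext _ _ (funext fun x => bp_ext (Set.image_comp _ _ _) (Set.image_comp _ _ _))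
  · intro φ ψ φ' h h'
    rw [dif_pos h, dif_pos h']
    rw [dg.le (mp h) (mpl h h') fun x => ⟨Set.subset_union_left, subset_rfl⟩,
      dg.le (mp h') (mpl h h') fun x => ⟨Set.subset_union_right, subset_rfl⟩]
  · intro φ φ' ψ' h h'
    rw [dif_pos h, dif_pos h']
    rw [dg.le (mp h) (mpr h h') fun x => ⟨subset_rfl, Set.subset_union_left⟩,
      dg.le (mp h') (mpr h h') fun x => ⟨subset_rfl, Set.subset_union_right⟩]
  · intro F F' hF a b c d hab hcd
    have h1 : Arc R R (fun x => F x x) (fun x => F' x x) := fun x y h => hF x y x y h h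
    have h2 : Arc R R (fun x => F x a) (fun x => F' x b) := fun x y h => hF x y a b h hab
    have h3 : Arc R R (F c) (F' d) := fun x y h => hF c d x y hcd h
    rw [dif_pos h1, dif_pos h2, dif_pos h3]
    rw [dg.le (mp h1) ((mp2 hF).comp OrderHom.diag) fun x => ⟨by
        rintro _ ⟨y, hy, rfl⟩
        exact ⟨y, hy, y, hy, rfl⟩, by
        rintro _ ⟨y, hy, rfl⟩
        exact ⟨y, hy, y, hy, rfl⟩⟩, dg.add (mp2 hF) (pr hcd) (pr hab)]
    congr 2
    · exact OrderHom.ext _ _ (funext fun x => bp_ext Set.image2_singleton_right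
        Set.image2_singleton_right)
    · exact OrderHom.ext _ _ (funext fun x => bp_ext Set.image2_singleton_left
        Set.image2_singleton_left)

end Pool.Agent.H54.HN
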