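import Pool.Agent.H99.HN.Targets
import Pool.Agent.H49.HM.GS3C
import Pool.Agent.H38.HM.Weak
import Pool.Agent.H41.HM.Polar

/-! Module FUND: the fundamental solution of the Laplacian, tested with smooth functions. -/

namespace Pool.Agent.H54.HN

open MeasureTheory Set Filter Topology Real
open scoped ContDiff
open Pool.Agent.H99.HM Pool.Agent.H99.HN

/-- the unit vectors -/
noncomputable abbrev ee (i : Fin 3) : E3 := EuclideanSpace.single i (1 : ℝ)

theorem hasLine_of_fderiv {f : E3 → ℝ} {f' : E3 →L[ℝ] ℝ} {x : E3} (h : HasFDerivAt f f' x)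
    (i : Fin 3) {c : ℝ} (hc : f' (ee i) = c) : HasLineDerivAt ℝ f c x (ee i) := by
  rw [← hc]
  exact h.hasLineDerivAt (ee i)

/-- integration by parts against a test function -/
theorem ibp {φ : E3 → ℝ} (hφ : IsTest φ) (i : Fin 3) {g g' : E3 → ℝ}
    (hg : Continuous g) (hg' : Continuous g')
    (hd : ∀ x, HasLineDerivAt ℝ g (g' x) x (ee i)) :
    ∫ x, pd i φ x * g x = - ∫ x, φ x * g' x := by
  have hp : IsTest (pd i φ) := Pool.Agent.H49.HM.contDiff_pd hφ i
  have h1 : Integrable (fun x => pd i φ x * g x) :=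
    (hp.1.continuous.mul hg).integrable_of_hasCompactSupport hp.2.mul_right
  have h2 : Integrable (fun x => φ x * g' x) :=
    (hφ.1.continuous.mul hg').integrable_of_hasCompactSupport hφ.2.mul_right
  have h3 : Integrable (fun x => φ x * g x) :=
    (hφ.1.continuous.mul hg).integrable_of_hasCompactSupport hφ.2.mul_right
  have key := integral_bilinear_hasLineDerivAt_right_eq_neg_left_of_integrable
    (μ := (volume : Measure E3)) (f := φ) (f' := pd i φ) (g := g) (g' := g') (v := ee i)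
    (B := ContinuousLinearMap.mul ℝ ℝ) h1 h2 h3
    (fun x _ => hasLine_of_fderiv
      (hφ.1.differentiable (by simp)).differentiableAt.hasFDerivAt i rfl)
    (fun x _ => hd x)
  have key' : ∫ x, φ x * g' x = - ∫ x, pd i φ x * g x := key
  rw [key', neg_neg]

/-- the regularised kernel -/
noncomputable def Nk (p s : ℝ) (x : E3) : ℝ := (‖x‖ ^ 2 + s ^ 2) ^ p

theorem Nk_cont (p : ℝ) {s : ℝ} (hs : 0 < s) : Continuous (Nk p s) := by
  unfold Nk
  refine Continuous.rpow_const (by fun_prop) fun x => Or.inl ?_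
  positivity

theorem Nk_fderiv (p : ℝ) {s : ℝ} (hs : 0 < s) (x : E3) :
    HasFDerivAt (Nk p s) ((p * (‖x‖ ^ 2 + s ^ 2) ^ (p - 1)) • (2 • innerSL ℝ x)) x := by
  have h0 : ‖x‖ ^ 2 + s ^ 2 ≠ 0 := by positivity
  have h1 : HasDerivAt (fun t : ℝ => (t + s ^ 2) ^ p) (p * (‖x‖ ^ 2 + s ^ 2) ^ (p - 1))
      (‖x‖ ^ 2) := by
    have h2 : HasDerivAt (fun t : ℝ => t + s ^ 2) 1 (‖x‖ ^ 2) := (hasDerivAt_id _).add_const _
    have h3 := h2.rpow_const (p := p) (Or.inl h0)
    convert h3 using 1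
    ring
  exact Pool.Agent.H38.HM.hasFDerivAt_comp_normSq x h1

theorem Nk_line (p : ℝ) {s : ℝ} (hs : 0 < s) (i : Fin 3) (x : E3) :
    HasLineDerivAt ℝ (Nk p s) (2 * p * (x i * Nk (p - 1) s x)) x (ee i) := by
  refine hasLine_of_fderiv (Nk_fderiv p hs x) i ?_
  rw [smul_apply, smul_apply, Pool.Agent.H38.HM.inner_single_aux, smul_eq_mul,
    nsmul_eq_mul]
  unfold Nk
  push_cast
  ring

theorem coordNk_line (p : ℝ) {s : ℝ} (hs : 0 < s) (i : Fin 3) (x : E3) :
    HasLineDerivAt ℝ (fun x : E3 => x i * Nk p s x)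
      (Nk p s x + 2 * p * (x i ^ 2 * Nk (p - 1) s x)) x (ee i) := by
  have h3 : HasFDerivAt (fun x : E3 => x i) (EuclideanSpace.proj i : E3 →L[ℝ] ℝ) x :=
    (EuclideanSpace.proj i : E3 →L[ℝ] ℝ).hasFDerivAt
  refine hasLine_of_fderiv (h3.mul (Nk_fderiv p hs x)) i ?_
  have h5 : (EuclideanSpace.proj i : E3 →L[ℝ] ℝ) (ee i) = 1 := by simp [ee]
  simp only [add_apply, smul_apply, Pool.Agent.H38.HM.inner_single_aux, smul_eq_mul,
      nsmul_eq_mul, h5]
  unfold Nk
  push_cast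
  ring

theorem coord_cont (i : Fin 3) : Continuous fun x : E3 => x i :=
  (EuclideanSpace.proj i : E3 →L[ℝ] ℝ).continuous

theorem lap_Nk {ψ : E3 → ℝ} (hψ : IsTest ψ) {s : ℝ} (hs : 0 < s) :
    ∫ x, lap ψ x * Nk (-1 / 2) s x = - ∫ x, ψ x * (3 * s ^ 2 * Nk (-5 / 2) s x) := by
  have hp : ∀ i, IsTest (pd i ψ) := fun i => Pool.Agent.H49.HM.contDiff_pd hψ i
  have hpp : ∀ i, IsTest (pd i (pd i ψ)) := fun i => Pool.Agent.H49.HM.contDiff_pd (hp i) i
  have hN : ∀ p, Continuous (Nk p s) := fun p => Nk_cont p hs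
  have h1 : ∀ i, ∫ x, pd i (pd i ψ) x * Nk (-1 / 2) s x =
      - ∫ x, ψ x * (Nk (-3 / 2) s x - 3 * (x i ^ 2 * Nk (-5 / 2) s x)) := by
    intro i
    have hc1 : Continuous fun x : E3 => 2 * (-1 / 2 : ℝ) * (x i * Nk (-1 / 2 - 1) s x) :=
      continuous_const.mul ((coord_cont i).mul (hN _))
    rw [ibp (hp i) i (hN (-1 / 2)) hc1 (fun x => Nk_line (-1 / 2) hs i x)]
    have hc2 : Continuous fun x : E3 => x i * Nk (-3 / 2) s x := (coord_cont i).mul (hN _)
    have hc3 : Continuous fun x : E3 =>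
        Nk (-3 / 2) s x + 2 * (-3 / 2) * (x i ^ 2 * Nk (-3 / 2 - 1) s x) :=
      (hN _).add (continuous_const.mul (((coord_cont i).pow 2).mul (hN _)))
    have h2 := ibp hψ i hc2 hc3 (fun x => coordNk_line (-3 / 2) hs i x)
    have h3 : ∀ x : E3, pd i ψ x * (2 * (-1 / 2 : ℝ) * (x i * Nk (-1 / 2 - 1) s x)) =
        - (pd i ψ x * (x i * Nk (-3 / 2) s x)) := by
      intro x
      norm_num
    simp only [h3]
    rw [integral_neg, h2]
    congr 2
    rw [neg_neg]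
    congr 1
    funext x
    have e : (-3 / 2 - 1 : ℝ) = -5 / 2 := by norm_num
    rw [e]
    ring
  have hi : ∀ i, Integrable (fun x => pd i (pd i ψ) x * Nk (-1 / 2) s x) := fun i =>
    ((hpp i).1.continuous.mul (hN _)).integrable_of_hasCompactSupport (hpp i).2.mul_right
  have hj : ∀ i : Fin 3, Integrable
      (fun x : E3 => ψ x * (Nk (-3 / 2) s x - 3 * (x i ^ 2 * Nk (-5 / 2) s x))) := fun i =>
    (hψ.1.continuous.mul ((hN _).sub (continuous_const.mul
      (((coord_cont i).pow 2).mul (hN _))))).integrable_of_hasCompactSupport hψ.2.mul_right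
  have h4 : ∀ x : E3, lap ψ x * Nk (-1 / 2) s x = ∑ i, pd i (pd i ψ) x * Nk (-1 / 2) s x := by
    intro x
    unfold lap
    rw [Finset.sum_mul]
  simp only [h4]
  rw [integral_finsetSum _ (fun i _ => hi i)]
  simp only [h1]
  rw [Finset.sum_neg_distrib, ← integral_finsetSum _ (fun i _ => hj i)]
  congr 2
  funext x
  have h0 : 0 < ‖x‖ ^ 2 + s ^ 2 := by positivity
  have h6 : Nk (-3 / 2) s x = (‖x‖ ^ 2 + s ^ 2) * Nk (-5 / 2) s x := by
    unfold Nk
    nth_rewrite 2 [← Real.rpow_one (‖x‖ ^ 2 + s ^ 2)]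
    rw [← Real.rpow_add h0]
    norm_num
  have h7 : ‖x‖ ^ 2 = ∑ i, x i ^ 2 := EuclideanSpace.real_norm_sq_eq x
  rw [← Finset.mul_sum, Finset.sum_sub_distrib, ← Finset.mul_sum, ← Finset.sum_mul, ← h7, h6,
    Finset.sum_const, Finset.card_univ, Fintype.card_fin, nsmul_eq_mul]
  push_cast
  ring

theorem radial_int : ∫ r in Ioi (0 : ℝ), r ^ 2 * (3 * (r ^ 2 + 1 ^ 2) ^ (-5 / 2 : ℝ)) = 1 := by
  have hder : ∀ r ∈ Ici (0 : ℝ), HasDerivAt (fun r : ℝ => r ^ 3 * (r ^ 2 + 1 ^ 2) ^ (-3 / 2 : ℝ))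
      (r ^ 2 * (3 * (r ^ 2 + 1 ^ 2) ^ (-5 / 2 : ℝ))) r := by
    intro r _
    have h0 : 0 < r ^ 2 + 1 ^ 2 := by positivity
    have h1 : HasDerivAt (fun t : ℝ => t ^ 2 + 1 ^ 2) (2 * r) r := by
      have := (hasDerivAt_pow 2 r).add_const ((1 : ℝ) ^ 2)
      simpa using this
    have h2 := h1.rpow_const (p := (-3 / 2 : ℝ)) (Or.inl h0.ne')
    have h3 := (hasDerivAt_pow 3 r).mul h2
    refine h3.congr_deriv ?_
    have h4 : (r ^ 2 + 1 ^ 2) ^ (-3 / 2 : ℝ) = (r ^ 2 + 1 ^ 2) * (r ^ 2 + 1 ^ 2) ^ (-5 / 2 : ℝ) := by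
      nth_rewrite 2 [← Real.rpow_one (r ^ 2 + 1 ^ 2)]
      rw [← Real.rpow_add h0]
      norm_num
    have h5 : (-3 / 2 - 1 : ℝ) = -5 / 2 := by norm_num
    rw [h5, h4]
    push_cast
    ring
  have hlim : Tendsto (fun r : ℝ => r ^ 3 * (r ^ 2 + 1 ^ 2) ^ (-3 / 2 : ℝ)) atTop (𝓝 1) := by
    have h1 : Tendsto (fun r : ℝ => r ^ 2 + 1 ^ 2) atTop atTop :=
      tendsto_atTop_add_const_right _ _ (tendsto_pow_atTop (by norm_num))
    have h2 : Tendsto (fun r : ℝ => 1 - (r ^ 2 + 1 ^ 2)⁻¹) atTop (𝓝 (1 - 0)) :=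
      tendsto_const_nhds.sub (tendsto_inv_atTop_zero.comp h1)
    have h3 : Tendsto (fun r : ℝ => (1 - (r ^ 2 + 1 ^ 2)⁻¹) ^ (3 / 2 : ℝ)) atTop
        (𝓝 ((1 - 0) ^ (3 / 2 : ℝ))) := h2.rpow_const (Or.inl (by norm_num))
    rw [sub_zero, Real.one_rpow] at h3
    refine h3.congr' ?_
    filter_upwards [eventually_gt_atTop 0] with r hr
    have h0 : 0 < r ^ 2 + 1 ^ 2 := by positivity
    have h4 : 1 - (r ^ 2 + 1 ^ 2)⁻¹ = r ^ 2 / (r ^ 2 + 1 ^ 2) := by
      field_simp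
      ring
    rw [h4, Real.div_rpow (by positivity) h0.le]
    have h5 : (r ^ 2) ^ (3 / 2 : ℝ) = r ^ 3 := by
      rw [← Real.rpow_natCast, ← Real.rpow_natCast, ← Real.rpow_mul hr.le]
      norm_num
    have h6 : (r ^ 2 + 1 ^ 2) ^ (-3 / 2 : ℝ) = ((r ^ 2 + 1 ^ 2) ^ (3 / 2 : ℝ))⁻¹ := by
      rw [← Real.rpow_neg h0.le]
      norm_num
    rw [h5, h6, div_eq_mul_inv]
  have := integral_Ioi_of_hasDerivAt_of_nonneg' hder (fun r hr => by positivity) hlim
  rw [this]
  norm_num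

theorem int_K : Integrable (fun x : E3 => Nk (-5 / 2) 1 x) ∧
    ∫ x : E3, 3 * Nk (-5 / 2) 1 x = 4 * π := by
  constructor
  · have h := integrable_rpow_neg_one_add_norm_sq (E := E3) (μ := volume) (r := 5)
      (by simp; norm_num)
    refine h.congr (Eventually.of_forall fun x => ?_)
    show (1 + ‖x‖ ^ 2) ^ (-5 / 2 : ℝ) = (‖x‖ ^ 2 + 1 ^ 2) ^ (-5 / 2 : ℝ)
    rw [one_pow, add_comm]
  · have h := (Pool.Agent.H41.HM.polar.2 (fun r => 3 * (r ^ 2 + 1 ^ 2) ^ (-5 / 2 : ℝ))).2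
    unfold Nk
    rw [h, radial_int, mul_one]

theorem scale {ψ : E3 → ℝ} {s : ℝ} (hs : 0 < s) :
    ∫ x, ψ x * (3 * s ^ 2 * Nk (-5 / 2) s x) = ∫ y : E3, ψ (s • y) * (3 * Nk (-5 / 2) 1 y) := by
  have h := Measure.integral_comp_smul (volume : Measure E3)
    (fun x => ψ x * (3 * s ^ 2 * Nk (-5 / 2) s x)) s
  have hf : Module.finrank ℝ E3 = 3 := by simp
  rw [hf, abs_of_pos (by positivity), smul_eq_mul] at h
  have h2 : ∀ y : E3, ψ (s • y) * (3 * s ^ 2 * Nk (-5 / 2) s (s • y)) =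
      (s ^ 3)⁻¹ * (ψ (s • y) * (3 * Nk (-5 / 2) 1 y)) := by
    intro y
    have h3 : Nk (-5 / 2) s (s • y) = (s ^ 5)⁻¹ * Nk (-5 / 2) 1 y := by
      unfold Nk
      rw [norm_smul, Real.norm_eq_abs, abs_of_pos hs]
      have h4 : (s * ‖y‖) ^ 2 + s ^ 2 = s ^ 2 * (‖y‖ ^ 2 + 1 ^ 2) := by ring
      rw [h4, Real.mul_rpow (by positivity) (by positivity)]
      congr 1
      rw [← Real.rpow_natCast, ← Real.rpow_natCast, ← Real.rpow_mul hs.le, ← Real.rpow_neg hs.le]
      norm_num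
    rw [h3]
    field_simp
  simp only [h2] at h
  rw [integral_const_mul] at h
  have hs3 : (s ^ 3)⁻¹ ≠ 0 := by positivity
  exact (mul_left_cancel₀ hs3 h).symm

theorem integrable_lin_div {φ : E3 → ℝ} (hφ : IsTest φ) :
    Integrable (fun x : E3 => φ x / ‖x‖) := by
  obtain ⟨C, R, hC, hR, hb, hz⟩ := Pool.Agent.H49.HM.test_bound hφ
  refine (Pool.Agent.H49.HM.integrable_inv_norm Pool.Agent.H41.HM.polar C R).mono' ?_ ?_
  · have h1 : Measurable φ := hφ.1.continuous.measurable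
    exact (h1.div measurable_norm).aestronglyMeasurable
  · refine Eventually.of_forall fun x => ?_
    rw [Real.norm_eq_abs, abs_div, abs_norm]
    by_cases hx : ‖x‖ < R
    · rw [indicator_of_mem (mem_Iio.2 hx)]
      gcongr
      exact hb x
    · rw [hz x (not_lt.1 hx), indicator_of_notMem (by simpa using hx)]
      simp

theorem isTest_lap {ψ : E3 → ℝ} (hψ : IsTest ψ) : IsTest (lap ψ) := by
  have hpp : ∀ i, IsTest (pd i (pd i ψ)) := fun i =>
    Pool.Agent.H49.HM.contDiff_pd (Pool.Agent.H49.HM.contDiff_pd hψ i) i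
  have h : lap ψ = fun x => pd 0 (pd 0 ψ) x + pd 1 (pd 1 ψ) x + pd 2 (pd 2 ψ) x := by
    funext x
    unfold lap
    rw [Fin.sum_univ_three]
  rw [h]
  exact ⟨((hpp 0).1.add (hpp 1).1).add (hpp 2).1, ((hpp 0).2.add (hpp 1).2).add (hpp 2).2⟩

theorem ae_ne0 : ∀ᵐ x : E3, x ≠ 0 := by
  have : (volume : Measure E3) {(0 : E3)} = 0 := measure_singleton _
  rw [ae_iff]
  simp

theorem fund0 {ψ : E3 → ℝ} (hψ : IsTest ψ) : ∫ x, lap ψ x / ‖x‖ = -4 * π * ψ 0 := by
  have hl := isTest_lap hψ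
  -- the sequence of parameters
  set s : ℕ → ℝ := fun n => 1 / ((n : ℝ) + 1) with hs
  have hspos : ∀ n, 0 < s n := fun n => by positivity
  have hslim : Tendsto s atTop (𝓝 0) := tendsto_one_div_add_atTop_nhds_zero_nat
  have hL : Tendsto (fun n => ∫ x, lap ψ x * Nk (-1 / 2) (s n) x) atTop
      (𝓝 (∫ x, lap ψ x / ‖x‖)) := by
    refine tendsto_integral_of_dominated_convergence (fun x => ‖lap ψ x / ‖x‖‖) ?_ ?_ ?_ ?_
    · intro n
      exact (hl.1.continuous.mul (Nk_cont _ (hspos n))).aestronglyMeasurable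
    · exact (integrable_lin_div hl).norm
    · intro n
      filter_upwards [ae_ne0] with x hx
      have hx' : 0 < ‖x‖ := norm_pos_iff.2 hx
      rw [norm_mul, norm_div, div_eq_mul_inv]
      refine mul_le_mul_of_nonneg_left ?_ (norm_nonneg _)
      unfold Nk
      rw [Real.norm_eq_abs, abs_of_nonneg (by positivity), norm_norm]
      calc (‖x‖ ^ 2 + s n ^ 2) ^ (-1 / 2 : ℝ) ≤ (‖x‖ ^ 2) ^ (-1 / 2 : ℝ) :=
            Real.rpow_le_rpow_of_nonpos (by positivity)
              (le_add_of_nonneg_right (by positivity)) (by norm_num)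
        _ = ‖x‖⁻¹ := by
            rw [← Real.rpow_natCast, ← Real.rpow_mul hx'.le, ← Real.rpow_neg_one]
            norm_num
    · filter_upwards [ae_ne0] with x hx
      have hx' : 0 < ‖x‖ := norm_pos_iff.2 hx
      rw [div_eq_mul_inv]
      refine tendsto_const_nhds.mul ?_
      unfold Nk
      have h1 : Tendsto (fun n => ‖x‖ ^ 2 + s n ^ 2) atTop (𝓝 (‖x‖ ^ 2 + 0 ^ 2)) :=
        tendsto_const_nhds.add (hslim.pow 2)
      have h2 := h1.rpow_const (p := (-1 / 2 : ℝ)) (Or.inl (by positivity))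
      have h3 : (‖x‖ ^ 2 + 0 ^ 2) ^ (-1 / 2 : ℝ) = ‖x‖⁻¹ := by
        rw [zero_pow (by norm_num), add_zero, ← Real.rpow_natCast, ← Real.rpow_mul hx'.le,
          ← Real.rpow_neg_one]
        norm_num
      rwa [h3] at h2
  have hR : Tendsto (fun n => ∫ x, lap ψ x * Nk (-1 / 2) (s n) x) atTop
      (𝓝 (-4 * π * ψ 0)) := by
    have h1 : ∀ n, ∫ x, lap ψ x * Nk (-1 / 2) (s n) x =
        - ∫ y : E3, ψ (s n • y) * (3 * Nk (-5 / 2) 1 y) := fun n => by
      rw [lap_Nk hψ (hspos n), scale (hspos n)]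
    simp only [h1]
    obtain ⟨C, hC⟩ := hψ.2.exists_bound_of_continuous hψ.1.continuous
    have h2 : Tendsto (fun n => ∫ y : E3, ψ (s n • y) * (3 * Nk (-5 / 2) 1 y)) atTop
        (𝓝 (∫ y : E3, ψ 0 * (3 * Nk (-5 / 2) 1 y))) := by
      refine tendsto_integral_of_dominated_convergence
        (fun y : E3 => C * (3 * Nk (-5 / 2) 1 y)) ?_ ?_ ?_ ?_
      · intro n
        exact ((hψ.1.continuous.comp (continuous_const_smul _)).mul
          (continuous_const.mul (Nk_cont _ one_pos))).aestronglyMeasurable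
      · exact (int_K.1.const_mul 3).const_mul C
      · intro n
        refine Eventually.of_forall fun y => ?_
        have hN : 0 ≤ 3 * Nk (-5 / 2) 1 y := by
          unfold Nk
          positivity
        rw [norm_mul, Real.norm_of_nonneg hN]
        exact mul_le_mul_of_nonneg_right (hC _) hN
      · refine Eventually.of_forall fun y => ?_
        refine Tendsto.mul_const _ ?_
        have h3 : Tendsto (fun n => s n • y) atTop (𝓝 ((0 : ℝ) • y)) := hslim.smul_const y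
        rw [zero_smul] at h3
        exact (hψ.1.continuous.tendsto 0).comp h3
    have h4 := h2.neg
    rw [integral_const_mul, int_K.2] at h4
    have h5 : -(ψ 0 * (4 * π)) = -4 * π * ψ 0 := by ring
    rwa [h5] at h4
  exact tendsto_nhds_unique hL hR

theorem pd_trans (ψ : E3 → ℝ) (a : E3) (i : Fin 3) :
    pd i (fun x => ψ (x + a)) = fun x => pd i ψ (x + a) := by
  funext x
  unfold pd
  rw [fderiv_comp_add_right]

theorem lap_trans (ψ : E3 → ℝ) (a : E3) :
    lap (fun x => ψ (x + a)) = fun x => lap ψ (x + a) := by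
  funext x
  unfold lap
  simp only [pd_trans]

theorem isTest_trans {ψ : E3 → ℝ} (hψ : IsTest ψ) (a : E3) : IsTest (fun x => ψ (x + a)) :=
  ⟨hψ.1.comp (contDiff_id.add contDiff_const),
    hψ.2.comp_homeomorph (Homeomorph.addRight a)⟩

theorem integrable_div_sub {φ : E3 → ℝ} (hφ : IsTest φ) (a : E3) :
    Integrable (fun x : E3 => φ x / ‖x - a‖) := by
  have h := (integrable_lin_div (isTest_trans hφ a)).comp_sub_right a
  simpa using h

/-- Module FUND. -/
theorem fund : T_fund := by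
  intro ψ hψ a
  refine ⟨integrable_div_sub (isTest_lap hψ) a, ?_⟩
  have h := fund0 (isTest_trans hψ a)
  rw [lap_trans, zero_add] at h
  rw [← h, ← integral_sub_right_eq_self (fun x => lap ψ (x + a) / ‖x‖) a]
  simp

end Pool.Agent.H54.HN
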