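import Pool.Agent.H54.HN.Fund
import Pool.Agent.H41.HM.Newt

/-! Module NEWT2: Newton's theorem, integrated form. -/

namespace Pool.Agent.H54.HN

open MeasureTheory Set Filter Topology Real
open scoped ContDiff Convolution
open Pool.Agent.H99.HM Pool.Agent.H99.HN

/-- the radial average of the kernel -/
theorem newt_y {y : E3} (hy : y ≠ 0) {f : ℝ → ℝ} (hf : Continuous f) :
    ∫ x : E3, f ‖x‖ / ‖y - x‖ = ∫ x : E3, f ‖x‖ / max ‖x‖ ‖y‖ := by
  have hm : Measurable (fun x : E3 => ‖x‖) := measurable_norm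
  have hY : 0 < ‖y‖ := norm_pos_iff.2 hy
  have h1 : ∫ r, f r ∂(((volume : Measure E3).withDensity
      (fun x => ENNReal.ofReal (1 / ‖y - x‖))).map (fun x => ‖x‖)) =
      ∫ x : E3, f ‖x‖ / ‖y - x‖ := by
    rw [integral_map hm.aemeasurable hf.aestronglyMeasurable,
      integral_withDensity_eq_integral_toReal_smul (by fun_prop)
        (Eventually.of_forall fun _ => ENNReal.ofReal_lt_top)]
    refine integral_congr_ae (Eventually.of_forall fun x => ?_)
    simp only [smul_eq_mul]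
    rw [ENNReal.toReal_ofReal (by positivity)]
    ring
  have h2 : ∫ r, f r ∂((volume.restrict (Ioi (0 : ℝ))).withDensity
        (fun r => ENNReal.ofReal (4 * π * r ^ 2 / max ‖y‖ r))) =
      ∫ x : E3, f ‖x‖ / max ‖x‖ ‖y‖ := by
    rw [integral_withDensity_eq_integral_toReal_smul (by fun_prop)
        (Eventually.of_forall fun _ => ENNReal.ofReal_lt_top),
      (Pool.Agent.H41.HM.polar.2 (fun r => f r / max r ‖y‖)).2, ← integral_const_mul]
    refine integral_congr_ae (Eventually.of_forall fun r => ?_)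
    simp only [smul_eq_mul]
    have : 0 < max ‖y‖ r := lt_of_lt_of_le hY (le_max_left _ _)
    rw [ENNReal.toReal_ofReal (by positivity), max_comm]
    ring
  rw [← h1, Pool.Agent.H41.HM.meas_eq hy, h2]

/-- the truncated kernel -/
noncomputable def kR (R : ℝ) (z : E3) : ℝ := (Iio R).indicator (fun r => 1 / r) ‖z‖

theorem kR_int (R : ℝ) : Integrable (kR R) :=
  Pool.Agent.H49.HM.integrable_inv_norm Pool.Agent.H41.HM.polar 1 R

/-- bound and support of a continuous compactly supported function -/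
theorem bound_cs {φ : E3 → ℝ} (hc : Continuous φ) (hs : HasCompactSupport φ) :
    ∃ C R : ℝ, 0 < C ∧ 0 < R ∧ (∀ x, |φ x| ≤ C) ∧ ∀ x : E3, R ≤ ‖x‖ → φ x = 0 := by
  obtain ⟨C, hC⟩ := hs.exists_bound_of_continuous hc
  obtain ⟨R, hR⟩ := hs.isCompact.isBounded.subset_ball (0 : E3)
  refine ⟨|C| + 1, max R 1, by positivity, by positivity, ?_, ?_⟩
  · intro x
    have := hC x
    rw [Real.norm_eq_abs] at this
    linarith [le_abs_self C]
  · intro x hx
    by_contra h
    have h1 : x ∈ tsupport φ := subset_tsupport _ h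
    have h2 := hR h1
    rw [Metric.mem_ball, dist_zero_right] at h2
    have := le_max_left R 1
    linarith

theorem int_div_norm {φ : E3 → ℝ} (hc : Continuous φ) (hs : HasCompactSupport φ) :
    Integrable (fun x : E3 => φ x / ‖x‖) := by
  obtain ⟨C, R, hC, hR, hb, hz⟩ := bound_cs hc hs
  refine (Pool.Agent.H49.HM.integrable_inv_norm Pool.Agent.H41.HM.polar C R).mono' ?_ ?_
  · exact (hc.measurable.div measurable_norm).aestronglyMeasurable
  · refine Eventually.of_forall fun x => ?_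
    rw [Real.norm_eq_abs, abs_div, abs_norm]
    by_cases hx : ‖x‖ < R
    · rw [indicator_of_mem (mem_Iio.2 hx)]
      gcongr
      exact hb x
    · rw [hz x (not_lt.1 hx), indicator_of_notMem (by simpa using hx)]
      simp

/-- the double integrand is integrable -/
theorem int_prod {φ ρ : E3 → ℝ} (hc : Continuous φ) (hs : HasCompactSupport φ)
    (hρc : Continuous ρ) (hρs : HasCompactSupport ρ) :
    Integrable (fun p : E3 × E3 => φ p.1 * (ρ p.2 / ‖p.1 - p.2‖)) (volume.prod volume) := by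
  obtain ⟨C, R, hC, hR, hb, hz⟩ := bound_cs hc hs
  obtain ⟨C', R', hC', hR', hb', hz'⟩ := bound_cs hρc hρs
  have hρi : Integrable ρ := hρc.integrable_of_hasCompactSupport hρs
  have h1 : Integrable (fun p : E3 × E3 => ρ p.2 * kR (R + R') (p.1 - p.2))
      (volume.prod volume) :=
    hρi.convolution_integrand (ContinuousLinearMap.mul ℝ ℝ) (kR_int (R + R'))
  have h2 : Integrable (fun p : E3 × E3 => φ p.1 * (ρ p.2 * kR (R + R') (p.1 - p.2)))
      (volume.prod volume) := by
    refine h1.bdd_mul (c := C) (hc.comp continuous_fst).aestronglyMeasurable ?_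
    exact Eventually.of_forall fun p => hb p.1
  refine h2.congr (Eventually.of_forall fun p => ?_)
  show φ p.1 * (ρ p.2 * kR (R + R') (p.1 - p.2)) = φ p.1 * (ρ p.2 / ‖p.1 - p.2‖)
  by_cases hp : R ≤ ‖p.1‖
  · rw [hz _ hp, zero_mul, zero_mul]
  · by_cases hq : R' ≤ ‖p.2‖
    · rw [hz' _ hq, zero_mul, zero_div]
    · have h3 : ‖p.1 - p.2‖ < R + R' :=
        lt_of_le_of_lt (norm_sub_le _ _) (by push Not at hp hq; linarith)
      unfold kR
      rw [indicator_of_mem (mem_Iio.2 h3)]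
      ring

theorem int_prod2 {φ ρ : E3 → ℝ} (hc : Continuous φ) (hs : HasCompactSupport φ)
    (hρc : Continuous ρ) (hρs : HasCompactSupport ρ) :
    Integrable (fun p : E3 × E3 => φ p.1 * (ρ p.2 / max ‖p.1‖ ‖p.2‖))
      (volume.prod volume) := by
  have hρi : Integrable ρ := hρc.integrable_of_hasCompactSupport hρs
  have h1 : Integrable (fun p : E3 × E3 => (φ p.1 / ‖p.1‖) * ρ p.2) (volume.prod volume) :=
    (int_div_norm hc hs).mul_prod hρi
  refine h1.norm.mono' ?_ ?_
  · have hm1 : Measurable fun p : E3 × E3 => φ p.1 := hc.measurable.comp measurable_fst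
    have hm2 : Measurable fun p : E3 × E3 => ρ p.2 := hρc.measurable.comp measurable_snd
    have hm3 : Measurable fun p : E3 × E3 => max ‖p.1‖ ‖p.2‖ := by fun_prop
    exact (hm1.mul (hm2.div hm3)).aestronglyMeasurable
  · have hne : ∀ᵐ p : E3 × E3 ∂(volume.prod volume), p.1 ≠ 0 := by
      have := (Measure.quasiMeasurePreserving_fst (μ := (volume : Measure E3))
        (ν := (volume : Measure E3))).ae ae_ne0
      exact this
    filter_upwards [hne] with p hp
    have hp' : 0 < ‖p.1‖ := norm_pos_iff.2 hp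
    rw [norm_mul, norm_div, norm_mul, norm_div, norm_norm,
      Real.norm_of_nonneg (le_trans (norm_nonneg _) (le_max_left _ _))]
    have h2 : ‖ρ p.2‖ / max ‖p.1‖ ‖p.2‖ ≤ ‖ρ p.2‖ / ‖p.1‖ := by
      gcongr
      exact le_max_left _ _
    calc ‖φ p.1‖ * (‖ρ p.2‖ / max ‖p.1‖ ‖p.2‖) ≤ ‖φ p.1‖ * (‖ρ p.2‖ / ‖p.1‖) := by gcongr
      _ = ‖φ p.1‖ / ‖p.1‖ * ‖ρ p.2‖ := by ring

theorem cs_norm {f : ℝ → ℝ} (hs : HasCompactSupport f) :
    HasCompactSupport (fun x : E3 => f ‖x‖) := by
  obtain ⟨R, hR⟩ := hs.isCompact.isBounded.subset_closedBall (0 : ℝ)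
  apply HasCompactSupport.of_support_subset_isCompact (isCompact_closedBall (0 : E3) R)
  intro x hx
  rw [Function.mem_support] at hx
  have h1 : ‖x‖ ∈ Metric.closedBall (0 : ℝ) R := hR (subset_tsupport _ hx)
  rw [mem_closedBall_zero_iff, norm_norm] at h1
  rwa [mem_closedBall_zero_iff]

/-- Module NEWT2. -/
theorem newt2 : T_newt2 := by
  intro ρ hρ f hf hfs _
  have hφc : Continuous fun x : E3 => f ‖x‖ := hf.comp continuous_norm
  have hφs : HasCompactSupport fun x : E3 => f ‖x‖ := cs_norm hfs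
  have hi1 := int_prod hφc hφs hρ.1.continuous hρ.2
  have hi2 := int_prod2 hφc hφs hρ.1.continuous hρ.2
  have e1 : ∀ x : E3, f ‖x‖ * Up ρ x = ∫ y, f ‖x‖ * (ρ y / ‖x - y‖) := fun x => by
    unfold Up
    rw [integral_const_mul]
  have e2 : ∀ x : E3, f ‖x‖ * Ubp ρ ‖x‖ = ∫ y, f ‖x‖ * (ρ y / max ‖x‖ ‖y‖) := fun x => by
    unfold Ubp
    rw [integral_const_mul]
  simp only [e1, e2]
  have s1 := integral_integral_swap (f := fun x y : E3 => f ‖x‖ * (ρ y / ‖x - y‖)) hi1
  have s2 := integral_integral_swap (f := fun x y : E3 => f ‖x‖ * (ρ y / max ‖x‖ ‖y‖)) hi2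
  rw [s1, s2]
  refine integral_congr_ae ?_
  filter_upwards [ae_ne0] with y hy
  have h1 : ∀ x : E3, f ‖x‖ * (ρ y / ‖x - y‖) = ρ y * (f ‖x‖ / ‖y - x‖) := fun x => by
    rw [norm_sub_rev]
    ring
  have h2 : ∀ x : E3, f ‖x‖ * (ρ y / max ‖x‖ ‖y‖) = ρ y * (f ‖x‖ / max ‖x‖ ‖y‖) :=
    fun x => by ring
  simp only [h1, h2]
  rw [integral_const_mul, integral_const_mul, newt_y hy hf]

end Pool.Agent.H54.HN
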