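import Pool.Agent.H54.HN.Newt2

/-! Module POT: regularity and decay of the Newton potential of a test density. -/

namespace Pool.Agent.H54.HN

open MeasureTheory Set Filter Topology Real
open scoped ContDiff Convolution
open Pool.Agent.H99.HM Pool.Agent.H99.HN

theorem loc_inv : LocallyIntegrable (fun z : E3 => ‖z‖⁻¹) := by
  rw [MeasureTheory.locallyIntegrable_iff]
  intro K hK
  obtain ⟨R, hR⟩ := hK.isBounded.subset_ball (0 : E3)
  refine ((kR_int R).integrableOn (s := K)).congr_fun ?_ hK.isClosed.measurableSet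
  intro z hz
  have h := hR hz
  rw [mem_ball_zero_iff] at h
  show (Iio R).indicator (fun r => 1 / r) ‖z‖ = ‖z‖⁻¹
  rw [indicator_of_mem (mem_Iio.2 h), one_div]

theorem Up_conv (ρ : E3 → ℝ) :
    Up ρ = ((fun z : E3 => ‖z‖⁻¹) ⋆[ContinuousLinearMap.mul ℝ ℝ, volume] ρ) := by
  funext x
  rw [convolution_def]
  unfold Up
  rw [← integral_sub_left_eq_self (fun y => ρ y / ‖x - y‖) volume x]
  congr 1
  funext t
  rw [sub_sub_cancel, ContinuousLinearMap.mul_apply']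
  ring

theorem pd_Up {ρ : E3 → ℝ} (hρ : IsTest ρ) (i : Fin 3) : pd i (Up ρ) = Up (pd i ρ) := by
  funext x
  have h1 : ContDiff ℝ 1 ρ := hρ.1.of_le (by simp)
  have h := hρ.2.hasFDerivAt_convolution_right (ContinuousLinearMap.mul ℝ ℝ) loc_inv h1 x
  unfold pd
  rw [Up_conv ρ, h.fderiv, convolution_precompR_apply _ loc_inv (hρ.2.fderiv ℝ)
    (h1.continuous_fderiv one_ne_zero), Up_conv]

theorem Up_smooth {ρ : E3 → ℝ} (hρ : IsTest ρ) : ContDiff ℝ ∞ (Up ρ) := by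
  rw [Up_conv ρ]
  exact hρ.2.contDiff_convolution_right (ContinuousLinearMap.mul ℝ ℝ) loc_inv hρ.1

theorem lap_Up (hF : T_fund) {ρ : E3 → ℝ} (hρ : IsTest ρ) (x : E3) :
    lap (Up ρ) x = -4 * π * ρ x := by
  have hp : ∀ i, IsTest (pd i ρ) := fun i => Pool.Agent.H49.HM.contDiff_pd hρ i
  have hpp : ∀ i, IsTest (pd i (pd i ρ)) := fun i => Pool.Agent.H49.HM.contDiff_pd (hp i) i
  have h1 : ∀ i, pd i (pd i (Up ρ)) = Up (pd i (pd i ρ)) := fun i => by
    rw [pd_Up hρ, pd_Up (hp i)]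
  unfold lap
  simp only [h1]
  rw [← (hF ρ hρ x).2]
  unfold Up lap
  have hi : ∀ i, Integrable (fun y => pd i (pd i ρ) y / ‖x - y‖) := fun i => by
    have := integrable_div_sub (hpp i) x
    simpa [norm_sub_rev] using this
  rw [← integral_finsetSum _ (fun i _ => hi i)]
  congr 1
  funext y
  rw [← Finset.sum_div, norm_sub_rev]

/-- derivative of the kernel -/
theorem ker_line {x y : E3} (h : y ≠ x) (i : Fin 3) :
    HasLineDerivAt ℝ (fun y : E3 => ‖x - y‖⁻¹) ((x i - y i) / ‖x - y‖ ^ 3) y (ee i) := by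
  have h0 : x - y ≠ 0 := sub_ne_zero.2 (Ne.symm h)
  have h0' : 0 < ‖x - y‖ := norm_pos_iff.2 h0
  have h0'' : ‖x - y‖ ^ 2 ≠ 0 := by positivity
  have h1 : HasDerivAt (fun t : ℝ => t ^ (-1 / 2 : ℝ))
      ((-1 / 2) * (‖x - y‖ ^ 2) ^ (-1 / 2 - 1 : ℝ)) (‖x - y‖ ^ 2) :=
    Real.hasDerivAt_rpow_const (Or.inl h0'')
  have h2 := Pool.Agent.H38.HM.hasFDerivAt_comp_normSq (x - y) h1
  have h3 : HasFDerivAt (fun y : E3 => x - y) (-(ContinuousLinearMap.id ℝ E3)) y :=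
    (hasFDerivAt_id y).const_sub x
  have h4 := h2.comp y h3
  have e1 : (fun z : E3 => (‖z‖ ^ 2) ^ (-1 / 2 : ℝ)) ∘ (fun y : E3 => x - y) =
      fun y : E3 => ‖x - y‖⁻¹ := by
    funext z
    show (‖x - z‖ ^ 2) ^ (-1 / 2 : ℝ) = ‖x - z‖⁻¹
    rw [← Real.rpow_natCast, ← Real.rpow_mul (norm_nonneg _), ← Real.rpow_neg_one]
    norm_num
  rw [e1] at h4
  refine hasLine_of_fderiv h4 i ?_
  have e2 : (‖x - y‖ ^ 2) ^ (-1 / 2 - 1 : ℝ) = (‖x - y‖ ^ 3)⁻¹ := by
    rw [← Real.rpow_natCast, ← Real.rpow_natCast, ← Real.rpow_mul h0'.le,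
      ← Real.rpow_neg h0'.le]
    norm_num
  rw [e2]
  rw [ContinuousLinearMap.comp_apply, neg_apply, ContinuousLinearMap.id_apply, map_neg,
    smul_apply, smul_apply, Pool.Agent.H38.HM.inner_single_aux, smul_eq_mul, nsmul_eq_mul]
  push_cast
  rw [PiLp.sub_apply]
  field_simp

theorem far_dist {x y : E3} {R : ℝ} (hx : 2 * R ≤ ‖x‖) (hy : ‖y‖ ≤ R) :
    ‖x‖ / 2 ≤ ‖x - y‖ := by
  have := norm_sub_norm_le x y
  linarith

theorem far0 {ρ : E3 → ℝ} (hρ : IsTest ρ) {R : ℝ} (hR : 1 ≤ R)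
    (hz : ∀ x : E3, R ≤ ‖x‖ → ρ x = 0) {x : E3} (hx : 2 * R ≤ ‖x‖) :
    |Up ρ x| ≤ (4 * ∫ y, |ρ y|) / ‖x‖ := by
  have hX : 0 < ‖x‖ := by linarith
  have hi : Integrable ρ := hρ.1.continuous.integrable_of_hasCompactSupport hρ.2
  have h1 : |Up ρ x| ≤ ∫ y, |ρ y| * (4 / ‖x‖) := by
    rw [← Real.norm_eq_abs]
    unfold Up
    refine norm_integral_le_of_norm_le (hi.abs.mul_const _) (Eventually.of_forall fun y => ?_)
    rw [norm_div, Real.norm_eq_abs, norm_norm]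
    by_cases hy : ‖y‖ ≤ R
    · have h2 := far_dist hx hy
      have h3 : 0 < ‖x‖ / 2 := by positivity
      calc |ρ y| / ‖x - y‖ ≤ |ρ y| / (‖x‖ / 2) := by gcongr
        _ = |ρ y| * (2 / ‖x‖) := by field_simp
        _ ≤ |ρ y| * (4 / ‖x‖) := by gcongr; norm_num
    · rw [hz y (not_le.1 hy).le]
      simp
  refine h1.trans (le_of_eq ?_)
  rw [integral_mul_const]
  ring

theorem far1 {ρ : E3 → ℝ} (hρ : IsTest ρ) {R : ℝ} (hR : 1 ≤ R)
    (hz : ∀ x : E3, R ≤ ‖x‖ → ρ x = 0) {x : E3} (hx : 2 * R ≤ ‖x‖) (i : Fin 3) :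
    |pd i (Up ρ) x| ≤ (4 * ∫ y, |ρ y|) / ‖x‖ ^ 2 := by
  have hX : 0 < ‖x‖ := by linarith
  have hi : Integrable ρ := hρ.1.continuous.integrable_of_hasCompactSupport hρ.2
  have hp := Pool.Agent.H49.HM.contDiff_pd hρ i
  have hts : ∀ y ∈ tsupport ρ, ‖y‖ ≤ R := by
    intro y hy
    have h1 : tsupport ρ ⊆ Metric.closedBall (0 : E3) R := by
      refine closure_minimal ?_ Metric.isClosed_closedBall
      intro z hz'
      rw [Function.mem_support] at hz'
      rw [mem_closedBall_zero_iff]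
      by_contra hc
      exact hz' (hz z (not_le.1 hc).le)
    have := h1 hy
    rwa [mem_closedBall_zero_iff] at this
  -- pointwise bound for the derivative of the kernel
  have hbd : ∀ y, ‖ρ y * ((x i - y i) / ‖x - y‖ ^ 3)‖ ≤ |ρ y| * (4 / ‖x‖ ^ 2) := by
    intro y
    rw [norm_mul, Real.norm_eq_abs]
    by_cases hy : ‖y‖ ≤ R
    · have h2 := far_dist hx hy
      have h3 : 0 < ‖x - y‖ := lt_of_lt_of_le (by positivity) h2
      refine mul_le_mul_of_nonneg_left ?_ (abs_nonneg _)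
      have h4 : |x i - y i| ≤ ‖x - y‖ := by
        have := PiLp.norm_apply_le (x - y) i
        rwa [PiLp.sub_apply, Real.norm_eq_abs] at this
      rw [norm_div, Real.norm_eq_abs, norm_pow, norm_norm]
      calc |x i - y i| / ‖x - y‖ ^ 3 ≤ ‖x - y‖ / ‖x - y‖ ^ 3 := by gcongr
        _ = 1 / ‖x - y‖ ^ 2 := by field_simp
        _ ≤ 1 / (‖x‖ / 2) ^ 2 := by gcongr
        _ = 4 / ‖x‖ ^ 2 := by field_simp; norm_num
    · rw [hz y (not_le.1 hy).le]
      simp
  have hm : AEStronglyMeasurable (fun y : E3 => ρ y * ((x i - y i) / ‖x - y‖ ^ 3)) volume := by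
    have h1 : Measurable ρ := hρ.1.continuous.measurable
    have h2 : Measurable fun y : E3 => x i - y i := (coord_cont i).measurable.const_sub _
    have h3 : Measurable fun y : E3 => ‖x - y‖ ^ 3 := by fun_prop
    exact (h1.mul (h2.div h3)).aestronglyMeasurable
  have hdom : Integrable fun y => |ρ y| * (4 / ‖x‖ ^ 2) := hi.abs.mul_const _
  have i2 : Integrable (fun y : E3 => ρ y * ((x i - y i) / ‖x - y‖ ^ 3)) :=
    hdom.mono' hm (Eventually.of_forall hbd)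
  have i1 : Integrable (fun y => pd i ρ y * ‖x - y‖⁻¹) := by
    have := integrable_div_sub hp x
    simpa [norm_sub_rev, div_eq_mul_inv] using this
  have i3 : Integrable (fun y => ρ y * ‖x - y‖⁻¹) := by
    have := integrable_div_sub hρ x
    simpa [norm_sub_rev, div_eq_mul_inv] using this
  have key := integral_bilinear_hasLineDerivAt_right_eq_neg_left_of_integrable
    (μ := (volume : Measure E3)) (f := ρ) (f' := pd i ρ) (g := fun y : E3 => ‖x - y‖⁻¹)
    (g' := fun y : E3 => (x i - y i) / ‖x - y‖ ^ 3) (v := ee i)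
    (B := ContinuousLinearMap.mul ℝ ℝ) i1 i2 i3
    (fun y _ => hasLine_of_fderiv
      (hρ.1.differentiable (by simp)).differentiableAt.hasFDerivAt i rfl)
    (fun y hy => ker_line (fun h => by
      have := hts y hy
      rw [h] at this
      linarith) i)
  have key' : ∫ y, ρ y * ((x i - y i) / ‖x - y‖ ^ 3) = - ∫ y, pd i ρ y * ‖x - y‖⁻¹ := key
  have e1 : pd i (Up ρ) x = - ∫ y, ρ y * ((x i - y i) / ‖x - y‖ ^ 3) := by
    rw [key', neg_neg, pd_Up hρ]
    rfl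
  rw [e1, abs_neg, ← Real.norm_eq_abs]
  refine (norm_integral_le_of_norm_le hdom (Eventually.of_forall hbd)).trans (le_of_eq ?_)
  rw [integral_mul_const]
  ring

theorem decay_comb {F : E3 → ℝ} (hc : Continuous F) (k : ℕ) {R A : ℝ} (hR : 1 ≤ R) (hA : 0 ≤ A)
    (hfar : ∀ x : E3, 2 * R ≤ ‖x‖ → |F x| ≤ A / ‖x‖ ^ k) :
    ∃ C, 0 ≤ C ∧ ∀ x, |F x| ≤ C / (1 + ‖x‖) ^ k := by
  obtain ⟨K, hK⟩ := (isCompact_closedBall (0 : E3) (2 * R)).exists_bound_of_continuousOn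
    hc.continuousOn
  refine ⟨A * 2 ^ k + |K| * (1 + 2 * R) ^ k, by positivity, fun x => ?_⟩
  by_cases hx : 2 * R ≤ ‖x‖
  · have hX : 1 ≤ ‖x‖ := by linarith
    have h1 : A / ‖x‖ ^ k ≤ A * 2 ^ k / (1 + ‖x‖) ^ k := by
      rw [div_le_div_iff₀ (by positivity) (by positivity), mul_assoc, ← mul_pow]
      have h2 : 1 + ‖x‖ ≤ 2 * ‖x‖ := by linarith
      gcongr
    refine (hfar x hx).trans (h1.trans ?_)
    gcongr
    exact le_add_of_nonneg_right (by positivity)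
  · have h1 := hK x (by rw [mem_closedBall_zero_iff]; exact (not_le.1 hx).le)
    rw [Real.norm_eq_abs] at h1
    have h2 : |F x| ≤ |K| := h1.trans (le_abs_self K)
    rw [le_div_iff₀ (by positivity)]
    calc |F x| * (1 + ‖x‖) ^ k ≤ |K| * (1 + 2 * R) ^ k := by
          gcongr
          exact (not_le.1 hx).le
      _ ≤ A * 2 ^ k + |K| * (1 + 2 * R) ^ k := le_add_of_nonneg_left (by positivity)

/-- Module POT. -/
theorem pot (hF : T_fund) : T_pot := by
  intro ρ hρ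
  refine ⟨Up_smooth hρ, lap_Up hF hρ, ?_⟩
  obtain ⟨C0, R0, hC0, hR0, hb, hz0⟩ := Pool.Agent.H49.HM.test_bound hρ
  set R := max R0 1 with hRdef
  have hR : 1 ≤ R := le_max_right _ _
  have hz : ∀ x : E3, R ≤ ‖x‖ → ρ x = 0 := fun x hx => hz0 x ((le_max_left _ _).trans hx)
  have hA : 0 ≤ 4 * ∫ y, |ρ y| := by
    have : 0 ≤ ∫ y, |ρ y| := integral_nonneg fun y => abs_nonneg _
    linarith
  obtain ⟨C1, hC1, h1⟩ := decay_comb (Up_smooth hρ).continuous 1 hR hA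
    (fun x hx => by rw [pow_one]; exact far0 hρ hR hz hx)
  have hcont : ∀ i, Continuous (pd i (Up ρ)) := fun i => by
    rw [pd_Up hρ]
    exact (Up_smooth (Pool.Agent.H49.HM.contDiff_pd hρ i)).continuous
  have h2 : ∀ i, ∃ C, 0 ≤ C ∧ ∀ x, |pd i (Up ρ) x| ≤ C / (1 + ‖x‖) ^ 2 := fun i =>
    decay_comb (hcont i) 2 hR hA (fun x hx => far1 hρ hR hz hx i)
  choose D hD hD2 using h2
  refine ⟨C1 + ∑ i, D i, fun x => ⟨?_, fun i => ?_⟩⟩
  · have := h1 x
    rw [pow_one] at this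
    refine this.trans ?_
    gcongr
    exact le_add_of_nonneg_right (Finset.sum_nonneg fun i _ => hD i)
  · refine (hD2 i x).trans ?_
    gcongr
    have : D i ≤ ∑ j, D j := Finset.single_le_sum (fun j _ => hD j) (Finset.mem_univ i)
    linarith

end Pool.Agent.H54.HN
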